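import Pool.Agent.Helper30.EL.St

/-!
# Project EL (MP_2d2425_nt), module C8E: the weights of the fundamental lemma
-/

set_option autoImplicit false

namespace Pool.Agent.Helper68.EL

open Finset Filter Topology ArithmeticFunction Pool.Agent.Helper30.EL
open Pool.Agent.Helper9.TW (gm Qs fm StC9)
open Pool.Agent.Helper18.TR (fam0 fam1 StBonf StFLmain StLevel)

/-- MODULE C8E -/
theorem hC8E (hB : StBonf) (hF : StFLmain) (h1 : StRT) : StC8E := by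
  obtain ⟨f, hf0, hF⟩ := hF 3 (1 / 1000) (by norm_num) (by norm_num)
  refine ⟨f, hf0, ?_⟩
  intro a n c θ hc ha hθ
  have hQ : ∀ p ∈ Qs a θ, p.Prime ∧ p ≤ ⌊(a : ℝ) ^ θ⌋₊ ∧ 7 ≤ p := by
    intro p hp
    unfold Qs at hp
    rw [mem_filter, mem_Icc] at hp
    exact ⟨hp.2.1, hp.1.2, hp.1.1⟩
  have hg : ∀ p ∈ Qs a θ, 0 ≤ gd n c p ∧ gd n c p ≤ 3 / p ∧ gd n c p ≤ 1 / 2 := by
    intro p hp
    obtain ⟨k1, k2, k3⟩ := hQ p hp
    have k4 := (h1 n c p k1 hc).1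
    have k5 : (7 : ℝ) ≤ p := by exact_mod_cast k3
    have k6 : (0 : ℝ) < p := by linarith
    have k6' : (0 : ℝ) < (p : ℝ) - 1 := by linarith
    have k7 : ((rt n c p).card : ℝ) ≤ 2 := by exact_mod_cast k4
    have k8 : gd n c p ≤ 3 / p := by
      unfold gd
      refine (div_le_div_of_nonneg_right k7 k6'.le).trans ?_
      rw [div_le_div_iff₀ k6' k6]
      linarith
    refine ⟨by unfold gd; positivity, k8, k8.trans ?_⟩
    rw [div_le_div_iff₀ k6 (by norm_num)]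
    linarith
  have hf := hF ⌊(a : ℝ) ^ θ⌋₊ (Qs a θ) (fun p hp => ⟨(hQ p hp).1, (hQ p hp).2.1⟩) (gd n c) (by
    intro p hp
    obtain ⟨g1, g2, g3⟩ := hg p hp
    exact ⟨g1, g2, g3⟩)
  have hb := hB ⌊(a : ℝ) ^ θ⌋₊ f (Qs a θ) (gd n c) hf0 (fun p hp => by
    obtain ⟨g1, g2, g3⟩ := hg p hp
    exact ⟨g1, by linarith⟩)
  have e0 : Tm 0 a θ f n c = ∑ T ∈ fam0 ⌊(a : ℝ) ^ θ⌋₊ f (Qs a θ),
      (-1 : ℝ) ^ T.card * ∏ p ∈ T, gd n c p := by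
    unfold Tm fm
    rw [if_pos rfl]
  have e1 : Tm 1 a θ f n c = ∑ T ∈ fam0 ⌊(a : ℝ) ^ θ⌋₊ f (Qs a θ) ∪ fam1 ⌊(a : ℝ) ^ θ⌋₊ f (Qs a θ),
      (-1 : ℝ) ^ T.card * ∏ p ∈ T, gd n c p := by
    unfold Tm fm
    rw [if_neg (by norm_num)]
  refine ⟨?_, by rw [e0]; exact hb.2, by rw [e0]; exact hf.1, by rw [e1]; exact hf.2,
    by rw [e1]; exact hb.1⟩
  intro q
  classical
  have hb2 := hB ⌊(a : ℝ) ^ θ⌋₊ f (Qs a θ) (fun p => if p ∣ vv n c q then (1 : ℝ) else 0) hf0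
    (fun p _ => by split_ifs <;> norm_num)
  have hprod : ∏ p ∈ Qs a θ, (1 - (if p ∣ vv n c q then (1 : ℝ) else 0)) = q0 a θ n c q := by
    unfold q0
    split_ifs with h
    · refine Finset.prod_eq_one fun p hp => ?_
      rw [if_neg (h p hp), sub_zero]
    · push Not at h
      obtain ⟨p, hp, hd⟩ := h
      exact Finset.prod_eq_zero hp (by rw [if_pos hd, sub_self])
  rw [hprod] at hb2
  have t0 : tq 0 a θ f n c q = ∑ T ∈ fam0 ⌊(a : ℝ) ^ θ⌋₊ f (Qs a θ),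
      (-1 : ℝ) ^ T.card * ∏ p ∈ T, (if p ∣ vv n c q then (1 : ℝ) else 0) := by
    unfold tq fm
    rw [if_pos rfl]
  have t1 : tq 1 a θ f n c q =
      ∑ T ∈ fam0 ⌊(a : ℝ) ^ θ⌋₊ f (Qs a θ) ∪ fam1 ⌊(a : ℝ) ^ θ⌋₊ f (Qs a θ),
      (-1 : ℝ) ^ T.card * ∏ p ∈ T, (if p ∣ vv n c q then (1 : ℝ) else 0) := by
    unfold tq fm
    rw [if_neg (by norm_num)]
  rw [t0, t1]
  exact hb2

end Pool.Agent.Helper68.EL
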